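import Mathlib

/-!
# A 3-torsion element in the lower central series of the free associative ring, part 1

Commutator identities (valid in every ring) and the functional modulo 3 on words of length 5.
-/

set_option autoImplicit false

namespace Pool.Agent.Q11.LC

/-- the commutator -/
def cm {R : Type*} [Ring R] (a b : R) : R := a * b - b * a

/-- the torsion element, a combination of 12 of the 120 products of `a, b, c, d, e` -/
def tor {R : Type*} [Ring R] (a b c d e : R) : R :=
   b*c*a*e*d + b*e*a*c*d + c*e*a*b*d + d*a*b*c*e + d*b*e*c*a + d*c*e*b*a - a*b*c*e*d - b*e*c*a*d - c*e*b*a*d - d*b*c*a*e - d*b*e*a*c - d*c*e*a*b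

theorem tor_three {R : Type*} [Ring R] (a b c d e : R) : tor a b c d e =
     cm d (cm (a*b) (c*e)) + cm b (cm (c*a*d) e) + cm d (cm c (e*b*a)) + cm (d*e*b) (cm a c) + cm (a*c) (cm (d*b) e) - cm (b*c*a) (cm d e) - cm (a*c*d) (cm b e) - cm (e*d*b) (cm a c) - cm (d*b) (cm (c*a) e) := by
  unfold tor cm
  noncomm_ring

theorem tor_four {R : Type*} [Ring R] (a b c d e : R) : 3 • tor a b c d e =
     cm (e*d) (cm b (cm a c)) + cm (d*c) (cm a (cm b e)) + cm b (cm d (cm c (e*a))) + cm e (cm (c*b) (cm a d)) + cm (a*b) (cm c (cm d e)) + cm (a*e) (cm c (cm b d)) + cm d (cm c (cm (a*b) e)) - cm d (cm (b*e) (cm a c)) - cm b (cm d (cm (c*a) e)) - cm (a*d) (cm c (cm b e)) - cm (c*e) (cm d (cm a b)) - cm (d*b) (cm e (cm a c)) - cm b (cm c (cm d (e*a))) - cm e (cm d (cm a (b*c))) - cm a (cm (e*c) (cm b d)) - cm (b*c) (cm a (cm d e)) - cm e (cm c (cm (b*a) d)) - cm d (cm (c*e) (cm a b)) - cm d (cm c (cm a (b*e))) - cm a (cm b (cm (c*e) d)) := by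
  unfold tor cm
  noncomm_ring

/-- table of the functional on words of length 5 (base 4 digits) -/
def tbl : ℕ := 0x20000000000000000000000000000000000000000000000000000000000000000000100000000000000000000000000000000000000000000000000000000020000000000000000000000000000000000000000000000000000000000000000000000000000000000000000000000000000000000000000000000000000000000000000000100000200000000000200000000000000000000000000010000000000000000000000000000000000000000000000000000000000000000000000000000000000000000000000000000000000000000000000000000000000000000000000010000000000000000000200000000000000000000000000010000000000000000000000000000000000000000000000000000000000000000000000000000000000000000000000000000000000000000000000000000000000000000000000000000000000000000000000010000000000000000000200000000000000000000000000000000000000000100000000000000000000000000000000020000000000000000000100000000000000000000000200000000000000000000000000000000000000000000000000000000000000000000000000000000000000000000000000000000000000000000000000000000000000000000000000000000000000000000000000000000000000000000000000000000000000000000000000000000000000000000000000010000000000000200000000000000000000000000000000000000000000010000000000000001000000000000000000000001000000000000000000000000000000000000000000000000000000000000000100000000000000000000000000000000000000000000000000000000000000000000000000000000000000000000000000000000000000000000000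

def code (l : List (Fin 5)) : ℕ := l.foldl (fun s x => 5 * s + x.val) 0

def look (l : List (Fin 5)) : ℕ := (tbl >>> (2 * code l)) &&& 3

/-- the functional on words -/
def psi0 (l : List (Fin 5)) : ZMod 3 := if l.length = 5 then ((look l : ℕ) : ZMod 3) else 0

end Pool.Agent.Q11.LC
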