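import Pool.Agent.Q11.LC.Base

set_option autoImplicit false

namespace Pool.Agent.Q11.LC

/-- the alternating sum of the values at the eight words of `[u, [v, [w, z]]]` vanishes mod 3 -/
def eq8 (u v w z : List (Fin 5)) : Bool :=
  (look (u ++ v ++ w ++ z) + look (u ++ w ++ ((z ++ v))) * 2 + look (u ++ v ++ z ++ w) * 2 +
    look (u ++ z ++ w ++ v) + look (v ++ w ++ z ++ u) * 2 + look (v ++ z ++ w ++ u) +
    look (w ++ z ++ v ++ u) + look (z ++ w ++ v ++ u) * 2) % 3 == 0

def fin5 : List (Fin 5) := [0, 1, 2, 3, 4]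

def chk : Bool := fin5.all fun a => fin5.all fun b => fin5.all fun c => fin5.all fun d =>
  fin5.all fun e => eq8 [a, b] [c] [d] [e] && eq8 [a] [b, c] [d] [e] && eq8 [a] [b] [c, d] [e] &&
    eq8 [a] [b] [c] [d, e]

theorem chk_true : chk = true := by decide +kernel

end Pool.Agent.Q11.LC
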