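import Pool.Agent.Q11.LC.Chk

/-!
# The functional modulo 3 vanishes on all commutators `[a, [b, [c, d]]]`
-/

set_option autoImplicit false

namespace Pool.Agent.Q11.LC

theorem mem_fin5 (a : Fin 5) : a ∈ fin5 := by
  revert a; decide

theorem eqs (a b c d e : Fin 5) : eq8 [a, b] [c] [d] [e] = true ∧ eq8 [a] [b, c] [d] [e] = true ∧
    eq8 [a] [b] [c, d] [e] = true ∧ eq8 [a] [b] [c] [d, e] = true := by
  have h := chk_true
  simp only [chk, List.all_eq_true, Bool.and_eq_true] at h
  have h2 := h a (mem_fin5 a) b (mem_fin5 b) c (mem_fin5 c) d (mem_fin5 d) e (mem_fin5 e)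
  exact ⟨h2.1.1.1, h2.1.1.2, h2.1.2, h2.2⟩

/-- the alternating sum over the eight words of `[u, [v, [w, z]]]` -/
def alt (f : List (Fin 5) → ZMod 3) (u v w z : List (Fin 5)) : ZMod 3 :=
  f (u ++ v ++ w ++ z) - f (u ++ v ++ z ++ w) - f (u ++ w ++ z ++ v) + f (u ++ z ++ w ++ v) -
    f (v ++ w ++ z ++ u) + f (v ++ z ++ w ++ u) + f (w ++ z ++ v ++ u) - f (z ++ w ++ v ++ u)

theorem three_zmod : (3 : ZMod 3) = 0 := by decide

theorem alt_of_eq8 {u v w z : List (Fin 5)} (h : eq8 u v w z = true)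
    (hl : u.length + v.length + w.length + z.length = 5) : alt psi0 u v w z = 0 := by
  have h1 : (look (u ++ v ++ w ++ z) + look (u ++ w ++ ((z ++ v))) * 2 + look (u ++ v ++ z ++ w) * 2 +
    look (u ++ z ++ w ++ v) + look (v ++ w ++ z ++ u) * 2 + look (v ++ z ++ w ++ u) +
    look (w ++ z ++ v ++ u) + look (z ++ w ++ v ++ u) * 2) % 3 = 0 := by
    simpa [eq8] using h
  have h2 := (ZMod.natCast_eq_zero_iff _ 3).2 (Nat.dvd_of_mod_eq_zero h1)
  push_cast at h2
  have e1 : psi0 (u ++ v ++ w ++ z) = (look (u ++ v ++ w ++ z) : ℕ) := by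
    rw [psi0, if_pos]; simp; omega
  have e2 : psi0 (u ++ v ++ z ++ w) = (look (u ++ v ++ z ++ w) : ℕ) := by
    rw [psi0, if_pos]; simp; omega
  have e3 : psi0 (u ++ w ++ z ++ v) = (look (u ++ w ++ (z ++ v)) : ℕ) := by
    rw [psi0, if_pos, ← List.append_assoc (u ++ w)]; simp; omega
  have e4 : psi0 (u ++ z ++ w ++ v) = (look (u ++ z ++ w ++ v) : ℕ) := by
    rw [psi0, if_pos]; simp; omega
  have e5 : psi0 (v ++ w ++ z ++ u) = (look (v ++ w ++ z ++ u) : ℕ) := by
    rw [psi0, if_pos]; simp; omega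
  have e6 : psi0 (v ++ z ++ w ++ u) = (look (v ++ z ++ w ++ u) : ℕ) := by
    rw [psi0, if_pos]; simp; omega
  have e7 : psi0 (w ++ z ++ v ++ u) = (look (w ++ z ++ v ++ u) : ℕ) := by
    rw [psi0, if_pos]; simp; omega
  have e8 : psi0 (z ++ w ++ v ++ u) = (look (z ++ w ++ v ++ u) : ℕ) := by
    rw [psi0, if_pos]; simp; omega
  rw [alt, e1, e2, e3, e4, e5, e6, e7, e8]
  linear_combination h2 - ((look (u ++ v ++ z ++ w) : ZMod 3) + (look (u ++ w ++ (z ++ v)) : ZMod 3) +
    (look (v ++ w ++ z ++ u) : ZMod 3) + (look (z ++ w ++ v ++ u) : ZMod 3)) * three_zmod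

theorem psi0_of_ne {l : List (Fin 5)} (h : l.length ≠ 5) : psi0 l = 0 := by
  rw [psi0, if_neg h]

theorem alt_zero (u v w z : List (Fin 5)) : alt psi0 u v w z = 0 := by
  by_cases hl : u.length + v.length + w.length + z.length = 5
  · by_cases hu : u.length = 0
    · obtain rfl := List.length_eq_zero_iff.1 hu
      simp only [alt, List.nil_append, List.append_nil]
      ring
    by_cases hv : v.length = 0
    · obtain rfl := List.length_eq_zero_iff.1 hv
      simp only [alt, List.nil_append, List.append_nil]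
      ring
    by_cases hw : w.length = 0
    · obtain rfl := List.length_eq_zero_iff.1 hw
      simp only [alt, List.nil_append, List.append_nil]
      ring
    by_cases hz : z.length = 0
    · obtain rfl := List.length_eq_zero_iff.1 hz
      simp only [alt, List.nil_append, List.append_nil]
      ring
    have hc : (u.length = 2 ∧ v.length = 1 ∧ w.length = 1 ∧ z.length = 1) ∨
        (u.length = 1 ∧ v.length = 2 ∧ w.length = 1 ∧ z.length = 1) ∨
        (u.length = 1 ∧ v.length = 1 ∧ w.length = 2 ∧ z.length = 1) ∨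
        (u.length = 1 ∧ v.length = 1 ∧ w.length = 1 ∧ z.length = 2) := by omega
    apply alt_of_eq8 _ hl
    rcases hc with ⟨h1, h2, h3, h4⟩ | ⟨h1, h2, h3, h4⟩ | ⟨h1, h2, h3, h4⟩ | ⟨h1, h2, h3, h4⟩
    · obtain ⟨a, b, rfl⟩ := List.length_eq_two.1 h1
      obtain ⟨c, rfl⟩ := List.length_eq_one_iff.1 h2
      obtain ⟨d, rfl⟩ := List.length_eq_one_iff.1 h3
      obtain ⟨e, rfl⟩ := List.length_eq_one_iff.1 h4
      exact (eqs a b c d e).1
    · obtain ⟨a, rfl⟩ := List.length_eq_one_iff.1 h1
      obtain ⟨b, c, rfl⟩ := List.length_eq_two.1 h2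
      obtain ⟨d, rfl⟩ := List.length_eq_one_iff.1 h3
      obtain ⟨e, rfl⟩ := List.length_eq_one_iff.1 h4
      exact (eqs a b c d e).2.1
    · obtain ⟨a, rfl⟩ := List.length_eq_one_iff.1 h1
      obtain ⟨b, rfl⟩ := List.length_eq_one_iff.1 h2
      obtain ⟨c, d, rfl⟩ := List.length_eq_two.1 h3
      obtain ⟨e, rfl⟩ := List.length_eq_one_iff.1 h4
      exact (eqs a b c d e).2.2.1
    · obtain ⟨a, rfl⟩ := List.length_eq_one_iff.1 h1
      obtain ⟨b, rfl⟩ := List.length_eq_one_iff.1 h2
      obtain ⟨c, rfl⟩ := List.length_eq_one_iff.1 h3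
      obtain ⟨d, e, rfl⟩ := List.length_eq_two.1 h4
      exact (eqs a b c d e).2.2.2
  · rw [alt]
    repeat rw [psi0_of_ne (by simp; omega)]
    simp

/-- a word as an element of the free ring -/
def word {n : ℕ} (l : List (Fin n)) : FreeAlgebra ℤ (Fin n) := (l.map (FreeAlgebra.ι ℤ)).prod

theorem word_append {n : ℕ} (l m : List (Fin n)) : word (l ++ m) = word l * word m := by
  simp [word]

theorem basis_eq {n : ℕ} (w : FreeMonoid (Fin n)) :
    FreeAlgebra.basisFreeMonoid ℤ (Fin n) w = word w.toList := by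
  simp [FreeAlgebra.basisFreeMonoid, word, FreeAlgebra.equivMonoidAlgebraFreeMonoid,
    FreeMonoid.lift_apply]
  exact one_smul _ _

theorem mem_closure_word {n : ℕ} (x : FreeAlgebra ℤ (Fin n)) :
    x ∈ AddSubgroup.closure (Set.range (word : List (Fin n) → FreeAlgebra ℤ (Fin n))) := by
  induction x with
  | grade0 r =>
    have h : algebraMap ℤ (FreeAlgebra ℤ (Fin n)) r = r • word [] := by
      simp [word]
    rw [h]
    exact AddSubgroup.zsmul_mem _ (AddSubgroup.subset_closure (Set.mem_range_self [])) r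
  | grade1 i => exact AddSubgroup.subset_closure ⟨[i], by simp [word]⟩
  | mul a b ha hb =>
    refine AddSubgroup.closure_induction (p := fun a _ => a * b ∈ AddSubgroup.closure
      (Set.range (word : List (Fin n) → FreeAlgebra ℤ (Fin n)))) ?_ ?_ ?_ ?_ ha
    · rintro _ ⟨u, rfl⟩
      refine AddSubgroup.closure_induction (p := fun b _ => word u * b ∈ AddSubgroup.closure
        (Set.range (word : List (Fin n) → FreeAlgebra ℤ (Fin n)))) ?_ ?_ ?_ ?_ hb
      · rintro _ ⟨v, rfl⟩
        exact AddSubgroup.subset_closure ⟨u ++ v, word_append u v⟩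
      · rw [mul_zero]; exact zero_mem _
      · intro x y _ _ hx hy; rw [mul_add]; exact add_mem hx hy
      · intro x _ hx; rw [mul_neg]; exact neg_mem hx
    · rw [zero_mul]; exact zero_mem _
    · intro x y _ _ hx hy; rw [add_mul]; exact add_mem hx hy
    · intro x _ hx; rw [neg_mul]; exact neg_mem hx
  | add a b ha hb => exact add_mem ha hb

theorem ind {n : ℕ} {p : FreeAlgebra ℤ (Fin n) → Prop} (h0 : p 0) (hw : ∀ l, p (word l))
    (hadd : ∀ x y, p x → p y → p (x + y)) (hneg : ∀ x, p x → p (-x)) (x : FreeAlgebra ℤ (Fin n)) :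
    p x := by
  refine AddSubgroup.closure_induction (p := fun y _ => p y) ?_ h0 (fun x y _ _ => hadd x y)
    (fun x _ => hneg x) (mem_closure_word x)
  rintro _ ⟨w, rfl⟩
  exact hw _

/-- the functional on the free ring of rank 5, as a linear map -/
noncomputable def psiL :=
  (FreeAlgebra.basisFreeMonoid ℤ (Fin 5)).constr ℤ (fun w => psi0 w.toList)

/-- the functional on the free ring of rank 5 -/
noncomputable def psi : FreeAlgebra ℤ (Fin 5) →+ ZMod 3 := psiL.toAddMonoidHom

theorem psi_word (l : List (Fin 5)) : psi (word l) = psi0 l := by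
  have h := basis_eq (FreeMonoid.ofList l)
  rw [FreeMonoid.toList_ofList] at h
  rw [← h]
  exact (FreeAlgebra.basisFreeMonoid ℤ (Fin 5)).constr_basis ℤ (fun w => psi0 w.toList)
    (FreeMonoid.ofList l)

theorem psi_cm_word (u v w z : List (Fin 5)) :
    psi (cm (word u) (cm (word v) (cm (word w) (word z)))) = 0 := by
  have h : cm (word u) (cm (word v) (cm (word w) (word z))) =
      word (u ++ v ++ w ++ z) - word (u ++ v ++ z ++ w) - word (u ++ w ++ z ++ v) +
      word (u ++ z ++ w ++ v) - word (v ++ w ++ z ++ u) + word (v ++ z ++ w ++ u) +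
      word (w ++ z ++ v ++ u) - word (z ++ w ++ v ++ u) := by
    simp only [word_append, cm]
    noncomm_ring
  rw [h]
  simp only [map_sub, map_add, psi_word]
  exact alt_zero u v w z

theorem cm_add_left {R : Type*} [Ring R] (x y z : R) : cm (x + y) z = cm x z + cm y z := by
  unfold cm; noncomm_ring
theorem cm_add_right {R : Type*} [Ring R] (x y z : R) : cm z (x + y) = cm z x + cm z y := by
  unfold cm; noncomm_ring
theorem cm_neg_left {R : Type*} [Ring R] (x z : R) : cm (-x) z = -cm x z := by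
  unfold cm; noncomm_ring
theorem cm_neg_right {R : Type*} [Ring R] (x z : R) : cm z (-x) = -cm z x := by
  unfold cm; noncomm_ring
theorem cm_zero_left {R : Type*} [Ring R] (z : R) : cm 0 z = 0 := by
  unfold cm; simp
theorem cm_zero_right {R : Type*} [Ring R] (z : R) : cm z 0 = 0 := by
  unfold cm; simp

theorem psi_cm (a b c d : FreeAlgebra ℤ (Fin 5)) : psi (cm a (cm b (cm c d))) = 0 := by
  revert b c d
  refine ind (p := fun a => ∀ b c d, psi (cm a (cm b (cm c d))) = 0) ?_ ?_ ?_ ?_ a
  · intro b c d; rw [cm_zero_left, map_zero]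
  · intro u b
    refine ind (p := fun b => ∀ c d, psi (cm (word u) (cm b (cm c d))) = 0) ?_ ?_ ?_ ?_ b
    · intro c d; rw [cm_zero_left, cm_zero_right, map_zero]
    · intro v c
      refine ind (p := fun c => ∀ d, psi (cm (word u) (cm (word v) (cm c d))) = 0) ?_ ?_ ?_ ?_ c
      · intro d; rw [cm_zero_left, cm_zero_right, cm_zero_right, map_zero]
      · intro w d
        refine ind (p := fun d => psi (cm (word u) (cm (word v) (cm (word w) d))) = 0)
          ?_ ?_ ?_ ?_ d
        · rw [cm_zero_right, cm_zero_right, cm_zero_right, map_zero]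
        · intro z; exact psi_cm_word u v w z
        · intro x y hx hy; rw [cm_add_right, cm_add_right, cm_add_right, map_add, hx, hy, add_zero]
        · intro x hx; rw [cm_neg_right, cm_neg_right, cm_neg_right, map_neg, hx, neg_zero]
      · intro x y hx hy d
        rw [cm_add_left, cm_add_right, cm_add_right, map_add, hx, hy, add_zero]
      · intro x hx d; rw [cm_neg_left, cm_neg_right, cm_neg_right, map_neg, hx, neg_zero]
    · intro x y hx hy c d; rw [cm_add_left, cm_add_right, map_add, hx, hy, add_zero]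
    · intro x hx c d; rw [cm_neg_left, cm_neg_right, map_neg, hx, neg_zero]
  · intro x y hx hy b c d; rw [cm_add_left, map_add, hx, hy, add_zero]
  · intro x hx b c d; rw [cm_neg_left, map_neg, hx, neg_zero]

theorem psi_tor : psi (tor (FreeAlgebra.ι ℤ 0) (FreeAlgebra.ι ℤ 1) (FreeAlgebra.ι ℤ 2)
    (FreeAlgebra.ι ℤ 3) (FreeAlgebra.ι ℤ 4)) ≠ 0 := by
  have h : ∀ i j k l m : Fin 5, FreeAlgebra.ι ℤ i * FreeAlgebra.ι ℤ j * FreeAlgebra.ι ℤ k *
      FreeAlgebra.ι ℤ l * FreeAlgebra.ι ℤ m = word [i, j, k, l, m] := by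
    intro i j k l m; simp [word, mul_assoc]
  simp only [tor, h, map_add, map_sub, psi_word]
  decide +kernel

end Pool.Agent.Q11.LC
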